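import Pool.Agent.Q60.RG.C
import Pool.Agent.Q60.PL.Tot

/-!
# Log schemes over the log point of a finite field: the weight filtration

`H` is the Kummer log étale cohomology of the projective SNCL schemes over the log point of a finite
field with `q` elements, with the action `F` of the Frobenius and the monodromy operator `N`; `P` is
the weight filtration given by the weight spectral sequence: `F` is pure of weight `k` on
`P_k / P_(k - 1)`.
-/

set_option autoImplicit false

open Module TensorProduct Filter Topology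

namespace Pool.Agent.Q60.RG

universe u v w

open Pool.Agent.Y143 Pool.Agent.Y136.UB Pool.Agent.Y163.MW Pool.Agent.Y163.MW.Coh Pool.Agent.Q60.PL

/-- `P` is a finite increasing filtration of `S` by `F`-stable subspaces such that the eigenvalues of
`F` on `P_k / P_(k - 1)` are `q`-Weil numbers of weight `k`. -/
structure IsWeightFil {Ω : Type w} [Field Ω] [CharZero Ω] {V : Type v} [AddCommGroup V] [Module Ω V]
    (q : ℕ) (S : Submodule Ω V) (F : Module.End Ω V) (P : ℤ → Submodule Ω V) : Prop where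
  mono : Monotone P
  bot : ∃ a, P a = ⊥
  top : ∃ a, P a = S
  le : ∀ a, P a ≤ S
  stable : ∀ a, ∀ x ∈ P a, F x ∈ P a
  pure : ∀ (k : ℤ) (α : Ω) (x : V), x ∈ P k → x ∉ P (k - 1) → F x - α • x ∈ P (k - 1) →
    IsWeilNumber q k α

section

variable {Ω : Type w} [Field Ω] [CharZero Ω]

section

variable {V : Type v} [AddCommGroup V] [Module Ω V] {q : ℕ} {S : Submodule Ω V}
  {F : Module.End Ω V} {P : ℤ → Submodule Ω V}

omit [CharZero Ω] in
lemma exists_level (hmono : Monotone P) {a : ℤ} (ha : P a = ⊥) {x : V} (hx0 : x ≠ 0) :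
    ∀ (n : ℕ) (k : ℤ), k ≤ a + n → x ∈ P k → ∃ j ≤ k, x ∈ P j ∧ x ∉ P (j - 1) := by
  intro n
  induction n with
  | zero =>
    intro k hk hx
    have h1 : x ∈ P a := hmono (by simpa using hk) hx
    rw [ha, Submodule.mem_bot] at h1
    exact absurd h1 hx0
  | succ n ih =>
    intro k hk hx
    by_cases h : x ∈ P (k - 1)
    · obtain ⟨j, hj, h1⟩ := ih (k - 1) (by push_cast at hk; omega) h
      exact ⟨j, by omega, h1⟩
    · exact ⟨k, le_rfl, hx, h⟩

lemma eig_level (hP : IsWeightFil q S F P) {α : Ω} {j : ℤ} : ∀ (r : ℕ) (x : V), x ∈ P j →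
    x ∉ P (j - 1) → ((F - algebraMap Ω (Module.End Ω V) α) ^ r) x = 0 → IsWeilNumber q j α := by
  intro r
  induction r with
  | zero =>
    intro x _ hx' h0
    have : x = 0 := by simpa using h0
    exact absurd (this ▸ zero_mem _) hx'
  | succ r ih =>
    intro x hx hx' h0
    have e : (F - algebraMap Ω (Module.End Ω V) α) x = F x - α • x := by
      rw [LinearMap.sub_apply, Module.algebraMap_end_apply]
    by_cases h : F x - α • x ∈ P (j - 1)
    · exact hP.pure j α x hx hx' h
    · refine ih (F x - α • x) ((P j).sub_mem (hP.stable j x hx) ((P j).smul_mem _ hx)) h ?_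
      rw [← e, ← Module.End.mul_apply, ← pow_succ]
      exact h0

end

variable [IsAlgClosed Ω] {R : Coh.{v, w} Ω} {q : ℕ}

/-- The weight filtration is given by the weights of `F`. -/
theorem weightFil_eq (hq : 1 < q) (hR : IsWCoh R q) {m : ℕ} {P : ℤ → Submodule Ω R.V}
    (hP : IsWeightFil q (R.gr m) R.F P) (s : ℤ) : P (m + s) = fil (R.exc q m) s := by
  have := hR.finite
  obtain ⟨a, ha⟩ := hP.bot
  have lev : ∀ (k : ℤ) (x : R.V), x ∈ P k → x ≠ 0 → ∃ j ≤ k, x ∈ P j ∧ x ∉ P (j - 1) :=
    fun k x hx hx0 => exists_level hP.mono ha hx0 (k - a).toNat k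
      (by have := Int.self_le_toNat (k - a); omega) hx
  apply le_antisymm
  · have hst : ∀ x ∈ P (m + s), R.F x ∈ P (m + s) := hP.stable _
    have h1 : P (m + s) = ⨆ α, P (m + s) ⊓ R.F.maxGenEigenspace α :=
      Submodule.eq_iSup_inf_genEigenspace ⊤ hst (Module.End.iSup_maxGenEigenspace_eq_top R.F)
    rw [h1]
    refine iSup_le fun α x hx => ?_
    by_cases hx0 : x = 0
    · rw [hx0]
      exact zero_mem _
    obtain ⟨hx1, hx2⟩ := Submodule.mem_inf.1 hx
    obtain ⟨j, hj, hj1, hj2⟩ := lev _ x hx1 hx0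
    obtain ⟨r, hr⟩ := mem_gen.1 hx2
    have hw := eig_level hP r x hj1 hj2 hr
    refine Submodule.mem_iSup_of_mem (j - m) (Submodule.mem_iSup_of_mem (by omega) ?_)
    refine Submodule.mem_iSup_of_mem α (Submodule.mem_iSup_of_mem ?_ ?_)
    · rwa [show (m : ℤ) + (j - m) = j by ring]
    · exact Submodule.mem_inf.2 ⟨hP.le _ hx1, hx2⟩
  · refine iSup₂_le fun c hc => iSup₂_le fun α hα x hx => ?_
    by_cases hx0 : x = 0
    · rw [hx0]
      exact zero_mem _
    obtain ⟨hx1, hx2⟩ := Submodule.mem_inf.1 hx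
    obtain ⟨t, ht⟩ := hP.top
    obtain ⟨j, hj, hj1, hj2⟩ := lev t x (by rw [ht]; exact hx1) hx0
    obtain ⟨r, hr⟩ := mem_gen.1 hx2
    have hw := eig_level hP r x hj1 hj2 hr
    have h2 := weil_unique hq hw hα
    exact hP.mono (by omega) hj1

/-- The weight filtration is the monodromy filtration if and only if `H^m` is mw pure. -/
theorem mono_iff_mwPure (hq : 1 < q) (hR : IsWCoh R q) {m : ℕ} {P : ℤ → Submodule Ω R.V}
    (hP : IsWeightFil q (R.gr m) R.F P) :
    IsMonodromyFiltrationOn (R.gr m) R.N (fun s => P (m + s)) ↔ R.MWPure q m := by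
  rw [w_mwPure_iff_fil hq hR m]
  have h : (fun s => P (m + s)) = fil (R.exc q m) := funext fun s => weightFil_eq hq hR hP s
  rw [h]

/-- The dimension of a graded piece of the weight filtration. -/
theorem finrank_weightFil (hq : 1 < q) (hR : IsWCoh R q) {m : ℕ} {P : ℤ → Submodule Ω R.V}
    (hP : IsWeightFil q (R.gr m) R.F P) (c : ℤ) :
    (finrank Ω (P (m + c)) : ℤ) - finrank Ω (P (m + c - 1)) = finrank Ω (R.exc q m c) := by
  have := hR.finite
  have h1 : P (m + c) = R.exc q m c ⊔ P (m + c - 1) := by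
    rw [weightFil_eq hq hR hP c, show (m : ℤ) + c - 1 = m + (c - 1) by ring,
      weightFil_eq hq hR hP (c - 1)]
    apply le_antisymm
    · refine iSup₂_le fun d hd => ?_
      by_cases h : d = c
      · rw [h]
        exact le_sup_left
      · exact le_trans (le_iSup₂_of_le (f := fun (d : ℤ) (_ : d ≤ c - 1) => R.exc q m d) d
          (by omega) le_rfl) le_sup_right
    · refine sup_le (le_iSup₂_of_le (f := fun (d : ℤ) (_ : d ≤ c) => R.exc q m d) c le_rfl le_rfl)
        (iSup₂_le fun d hd => le_iSup₂_of_le (f := fun (d : ℤ) (_ : d ≤ c) => R.exc q m d) d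
          (by omega) le_rfl)
  have h2 : Disjoint (R.exc q m c) (P (m + c - 1)) := by
    rw [show (m : ℤ) + c - 1 = m + (c - 1) by ring, weightFil_eq hq hR hP (c - 1)]
    refine (w_indep_exc_deg hq hR m c).mono_right ?_
    refine iSup₂_le fun d hd => ?_
    exact le_iSup₂_of_le (f := fun (d : ℤ) (_ : d ≠ c) => R.exc q m d) d (by omega) le_rfl
  have h3 := Submodule.finrank_sup_add_finrank_inf_eq (R.exc q m c) (P (m + c - 1))
  rw [disjoint_iff.1 h2, finrank_bot, ← h1] at h3
  omega

/-- Sums over the graded pieces of the weight filtrations. -/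
theorem finsum_weightFil (hq : 1 < q) (hR : IsWCoh R q) {P : ℕ → ℤ → Submodule Ω R.V}
    (hP : ∀ m, IsWeightFil q (R.gr m) R.F (P m)) (φ : ℤ → ℤ) :
    ∑ᶠ p : ℕ × ℤ, φ (p.2 - p.1) * ((finrank Ω (P p.1 p.2) : ℤ) - finrank Ω (P p.1 (p.2 - 1))) =
      ∑ᶠ c : ℤ, φ c * (finrank Ω (R.tot q c) : ℤ) := by
  classical
  have := hR.finite
  let e : ℕ × ℤ ≃ ℕ × ℤ :=
    { toFun := fun p => (p.1, p.1 + p.2)
      invFun := fun p => (p.1, p.2 - p.1)
      left_inv := fun p => by simp
      right_inv := fun p => by simp }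
  rw [← finsum_comp_equiv e]
  have h1 : ∀ p : ℕ × ℤ, φ ((e p).2 - (e p).1) *
      ((finrank Ω (P (e p).1 (e p).2) : ℤ) - finrank Ω (P (e p).1 ((e p).2 - 1))) =
      φ p.2 * (finrank Ω (R.exc q p.1 p.2) : ℤ) := by
    intro p
    show φ ((p.1 : ℤ) + p.2 - p.1) *
      ((finrank Ω (P p.1 (p.1 + p.2)) : ℤ) - finrank Ω (P p.1 (p.1 + p.2 - 1))) = _
    rw [finrank_weightFil hq hR (hP p.1) p.2, add_sub_cancel_left]
  rw [finsum_congr h1]
  have hfm : {m | R.gr m ≠ ⊥}.Finite :=
    WellFoundedGT.finite_ne_bot_of_iSupIndep hR.isInternal.submodule_iSupIndep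
  have hfc : {c | R.tot q c ≠ ⊥}.Finite :=
    WellFoundedGT.finite_ne_bot_of_iSupIndep (w_indep_tot hq hR)
  have hm : ∀ m, m ∉ hfm.toFinset → ∀ c, R.exc q m c = ⊥ := by
    intro m hm c
    have : R.gr m = ⊥ := by
      by_contra h
      exact hm (hfm.mem_toFinset.2 h)
    exact le_bot_iff.1 ((exc_le m c).trans this.le)
  have hc : ∀ c, c ∉ hfc.toFinset → R.tot q c = ⊥ := by
    intro c hc
    by_contra h
    exact hc (hfc.mem_toFinset.2 h)
  rw [finsum_eq_sum_of_support_subset (s := hfm.toFinset ×ˢ hfc.toFinset),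
    finsum_eq_sum_of_support_subset (s := hfc.toFinset), Finset.sum_product_right]
  · refine Finset.sum_congr rfl fun c _ => ?_
    show ∑ m ∈ hfm.toFinset, φ c * (finrank Ω (R.exc q m c) : ℤ) = _
    rw [← Finset.mul_sum]
    congr 1
    have h2 : finrank Ω (R.tot q c) = ∑ m ∈ hfm.toFinset, finrank Ω (R.exc q m c) := by
      refine finrank_iSup_eq ?_ _ fun m h => hm m h c
      exact (w_indep_exc hq hR).comp (f := fun m : ℕ => (m, c)) (fun m m' h => (Prod.mk.inj h).1)
    rw [h2]
    push_cast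
    rfl
  · intro c h
    by_contra hcon
    apply h
    show φ c * (finrank Ω (R.tot q c) : ℤ) = 0
    rw [hc c (fun h' => hcon (Finset.mem_coe.2 h')), finrank_bot]
    simp
  · rintro ⟨m, c⟩ h
    by_contra hcon
    apply h
    show φ c * (finrank Ω (R.exc q m c) : ℤ) = 0
    rw [Finset.mem_coe, Finset.mem_product, not_and_or] at hcon
    have : R.exc q m c = ⊥ := by
      rcases hcon with h1 | h1
      · exact hm m h1 c
      · exact le_bot_iff.1 ((exc_le_tot m c).trans (hc c h1).le)
    rw [this, finrank_bot]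
    simp

end

/-- The data of the log `ℓ`-adic cohomology of a class of log schemes over a log point. -/
structure LogTheory (Ω : Type w) [Field Ω] where
  /-- the projective SNCL schemes over the log point -/
  Var : Type u
  /-- a projective SNCL modification of the fibre product -/
  prod : Var → Var → Var
  /-- the relative dimension -/
  dim : Var → ℕ
  /-- the cohomology, with the Frobenius and the monodromy operator -/
  H : Var → Coh.{v, w} Ω
  /-- `P X m` is the weight filtration of `H^m(X)` -/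
  P : ∀ X : Var, ℕ → ℤ → Submodule Ω (H X).V

namespace LogTheory

variable {Ω : Type w} [Field Ω]

/-- The powers `X^(n + 1)`. -/
def pow (T : LogTheory.{u, v, w} Ω) (X : T.Var) : ℕ → T.Var
  | 0 => X
  | n + 1 => T.prod X (T.pow X n)

/-- Kato's conjecture for `H^m(X)`: the weight filtration is the monodromy filtration. -/
def Kato (T : LogTheory.{u, v, w} Ω) (X : T.Var) (m : ℕ) : Prop :=
  IsMonodromyFiltrationOn ((T.H X).gr m) (T.H X).N (fun s => T.P X m (m + s))

/-- The sum of the `(k - m)² dim (P_k / P_(k - 1))` over the `H^m(X)`. -/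
noncomputable def moment (T : LogTheory.{u, v, w} Ω) (X : T.Var) : ℤ :=
  ∑ᶠ p : ℕ × ℤ, (p.2 - p.1) ^ 2 *
    ((finrank Ω (T.P X p.1 p.2) : ℤ) - finrank Ω (T.P X p.1 (p.2 - 1)))

open Classical in
/-- The sum of the `dim (P_k / P_(k - 1))` over the `H^m(X)`, for `|k - m| ≤ x`. -/
noncomputable def near (T : LogTheory.{u, v, w} Ω) (X : T.Var) (x : ℝ) : ℤ :=
  ∑ᶠ p : ℕ × ℤ, (if |((p.2 - p.1 : ℤ) : ℝ)| ≤ x then 1 else 0) *
    ((finrank Ω (T.P X p.1 p.2) : ℤ) - finrank Ω (T.P X p.1 (p.2 - 1)))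

/-- The sum of the `dim (P_k / P_(k - 1))` over the `H^m(X)`, for `k = m` and `k = m + 1`: the
dimension of the kernel of `N` predicted by the weight filtration. -/
noncomputable def predicted (T : LogTheory.{u, v, w} Ω) (X : T.Var) : ℤ :=
  ∑ᶠ p : ℕ × ℤ, (if p.2 - p.1 = 0 ∨ p.2 - p.1 = 1 then 1 else 0) *
    ((finrank Ω (T.P X p.1 p.2) : ℤ) - finrank Ω (T.P X p.1 (p.2 - 1)))

variable [CharZero Ω]

/-- The known properties: `N F = q F N`, the weight spectral sequence (`P_k / P_(k - 1)` is pure of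
weight `k`), Poincaré duality between `H^m` and `H^(2 d - m)`, Künneth formula. -/
structure IsLog (T : LogTheory.{u, v, w} Ω) (q : ℕ) : Prop where
  coh : ∀ X, IsWCoh (T.H X) q
  weight : ∀ X m, IsWeightFil q ((T.H X).gr m) (T.H X).F (T.P X m)
  dual : ∀ X, ∃ B, IsPoincare (T.H X) q (T.dim X) B
  kunneth : ∀ X Y, ∃ κ, IsKunneth (T.H X) (T.H Y) (T.H (T.prod X Y)) κ

variable {T : LogTheory.{u, v, w} Ω} {q : ℕ}

lemma IsLog.powers (hT : T.IsLog q) (X : T.Var) :
    IsPowers (fun n => T.H (T.pow X n)) q (T.dim X) :=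
  ⟨fun _ => hT.coh _, hT.dual X, fun n => hT.kunneth X (T.pow X n)⟩

variable [IsAlgClosed Ω]

lemma IsLog.kato_iff (hq : 1 < q) (hT : T.IsLog q) (X : T.Var) (m : ℕ) :
    T.Kato X m ↔ (T.H X).MWPure q m := mono_iff_mwPure hq (hT.coh X) (hT.weight X m)

lemma IsLog.moment_eq (hq : 1 < q) (hT : T.IsLog q) (X : T.Var) :
    T.moment X = (T.H X).totWeightMoment q :=
  finsum_weightFil hq (hT.coh X) (hT.weight X) (fun c => c ^ 2)

lemma IsLog.near_eq (hq : 1 < q) (hT : T.IsLog q) (X : T.Var) (x : ℝ) :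
    T.near X x = nearWeights (T.H X) q x := by
  classical
  refine (finsum_weightFil hq (hT.coh X) (hT.weight X)
    (fun c => if |(c : ℝ)| ≤ x then 1 else 0)).trans ?_
  refine finsum_congr fun c => ?_
  split_ifs <;> simp

lemma IsLog.predicted_eq (hq : 1 < q) (hT : T.IsLog q) (X : T.Var) :
    T.predicted X = ((T.H X).pred q : ℤ) := by
  refine (finsum_weightFil hq (hT.coh X) (hT.weight X)
    (fun c => if c = 0 ∨ c = 1 then 1 else 0)).trans ?_
  rw [finsum_eq_sum_of_support_subset (s := {0, 1})]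
  · rw [Finset.sum_pair (by norm_num)]
    unfold pred
    push_cast
    simp
  · intro c hc
    by_contra hcon
    apply hc
    simp only [Finset.coe_insert, Finset.coe_singleton, Set.mem_insert_iff,
      Set.mem_singleton_iff] at hcon
    simp [hcon]

end LogTheory

end Pool.Agent.Q60.RG
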