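import Pool.Agent.Q60.RG.W

/-!
# Strings, moments, symmetry of the weights, powers
-/

set_option autoImplicit false

open Module TensorProduct Filter Topology

namespace Pool.Agent.Q60.RG

universe u v w

open Pool.Agent.Y143 Pool.Agent.Y136.UB Pool.Agent.Y163.MW Pool.Agent.Y163.MW.Coh Pool.Agent.Q60.PL

section

variable {Ω : Type w} [Field Ω] [CharZero Ω] {R : Coh.{v, w} Ω} {q : ℕ}

section adp

variable {I : Type} [Fintype I] {a c : I → ℤ}

lemma w_finrank_tot (hq : 1 < q) (hR : IsWCoh R q) (H : R.Adp q a c) (r : ℤ) :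
    finrank Ω (R.tot q r) = Nat.card {i // c i = r} := by
  obtain ⟨b, e, h, -, hb⟩ := H
  exact finrank_gr (w_indep_tot hq hR) b c hb r

lemma w_pred_eq (hq : 1 < q) (hR : IsWCoh R q) (H : R.Adp q a c) :
    R.pred q = Nat.card {i // c i = 0 ∨ c i = 1} := by
  classical
  rw [pred, w_finrank_tot hq hR H, w_finrank_tot hq hR H, Nat.card_eq_fintype_card,
    Nat.card_eq_fintype_card, Nat.card_eq_fintype_card, Fintype.card_subtype,
    Fintype.card_subtype, Fintype.card_subtype, Finset.filter_or, Finset.card_union_of_disjoint]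
  rw [Finset.disjoint_filter]
  intro i _ h0 h1
  omega

lemma w_right_eq (hq : 1 < q) (hR : IsWCoh R q) (H : R.Adp q a c) {M : ℤ → Submodule Ω R.V}
    (hM : IsMonodromyFiltrationOn ⊤ R.N M) : R.right q M = Nat.card {i // c i - a i = 0} := by
  classical
  obtain ⟨b, e, h, hs, hb⟩ := H
  have h1 := Pool.Agent.Y68.MW.stD Pool.Agent.Y141.MW.stL Ω R.V R.N I b a e h hs M hM
  have h2 : ∀ r s, finrank Ω (M r ⊓ R.tot q s : Submodule Ω R.V) =
      Nat.card {i // a i ≤ r ∧ c i = s} := by
    intro r s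
    rw [h1 r, gr_eq_span (w_indep_tot hq hR) b c hb s, span_image_inf, finrank_span_image]
    rfl
  have h3 : ∀ s, (Nat.card {i // a i ≤ s ∧ c i = s} : ℤ) - Nat.card {i // a i ≤ s - 1 ∧ c i = s} =
      1 * (Nat.card {g : {i // c i - a i = 0} // c g.1 = s} : ℤ) := by
    intro s
    have h4 : Nat.card {i // a i ≤ s ∧ c i = s} = Nat.card {i // a i ≤ s - 1 ∧ c i = s} +
        Nat.card {g : {i // c i - a i = 0} // c g.1 = s} := by
      have e1 : Nat.card {g : {i // c i - a i = 0} // c g.1 = s} =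
          Nat.card {i // c i - a i = 0 ∧ c i = s} :=
        Nat.card_congr (Equiv.subtypeSubtypeEquivSubtypeInter (fun i => c i - a i = 0)
          (fun i => c i = s))
      rw [e1, Nat.card_eq_fintype_card, Nat.card_eq_fintype_card, Nat.card_eq_fintype_card,
        Fintype.card_subtype, Fintype.card_subtype, Fintype.card_subtype,
        ← Finset.card_union_of_disjoint]
      · congr 1
        ext i
        simp only [Finset.mem_filter, Finset.mem_univ, true_and, Finset.mem_union]
        omega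
      · rw [Finset.disjoint_filter]
        intro i _ h5 h6
        omega
    rw [h4]
    push_cast
    ring
  unfold right overlap
  rw [finsum_congr (fun s => by rw [h2, h2, h3 s]),
    finsum_card (fun g : {i // c i - a i = 0} => c g.1) (fun _ => 1), Finset.sum_const,
    Nat.card_eq_fintype_card]
  simp

end adp

/-- Poincaré duality for a variety of dimension `d`: a nondegenerate form `B` for which `H^m` and
`H^m'` are orthogonal if `m + m'` is not `2 d`, with `B(F x, F y) = q ^ d B(x, y)`. -/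
structure IsPoincare (R : Coh.{v, w} Ω) (q d : ℕ) (B : R.V →ₗ[Ω] R.V →ₗ[Ω] Ω) : Prop where
  nondeg : ∀ x, (∀ y, val B x y = 0) → x = 0
  orth : ∀ m m' x y, x ∈ R.gr m → y ∈ R.gr m' → m + m' ≠ 2 * d → val B x y = 0
  frob : ∀ x y, val B (R.F x) (R.F y) = (q : Ω) ^ d * val B x y

/-- Symmetry of the weights on the whole cohomology. -/
lemma w_finrank_tot_neg [IsAlgClosed Ω] (hq : 1 < q) (hR : IsWCoh R q) {d : ℕ}
    {B : R.V →ₗ[Ω] R.V →ₗ[Ω] Ω} (hB : IsPoincare R q d B) (c : ℤ) :
    finrank Ω (R.tot q c) = finrank Ω (R.tot q (-c)) := by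
  have := hR.finite
  have key : ∀ c : ℤ, finrank Ω (R.tot q c) ≤ finrank Ω (R.tot q (-c)) := by
    intro c
    have hB0 : ∀ x, (∀ y, B x y = 0) → x = 0 := hB.nondeg
    have hB1 : ∀ m m' x y, x ∈ R.gr m → y ∈ R.gr m' → m + m' ≠ 2 * d → B x y = 0 := hB.orth
    have hB2 : ∀ x y, B (R.F x) (R.F y) = (q : Ω) ^ d * B x y := hB.frob
    let φ : R.tot q c →ₗ[Ω] Module.Dual Ω (R.tot q (-c)) :=
      { toFun := fun x => (B x).comp (R.tot q (-c)).subtype
        map_add' := fun x y => by ext z; simp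
        map_smul' := fun a x => by ext z; simp }
    have hφ : Function.Injective φ := by
      rw [← LinearMap.ker_eq_bot, LinearMap.ker_eq_bot']
      intro x hx
      apply Subtype.ext
      apply hB0
      have h1 : ∀ m' c', ∀ y ∈ R.exc q m' c', B x y = 0 := by
        intro m' c' y hy
        by_cases hc : c' = -c
        · subst hc
          exact DFunLike.congr_fun hx ⟨y, exc_le_tot m' _ hy⟩
        · have h2 : R.tot q c ≤ LinearMap.ker (B.flip y) := by
            refine iSup_le fun m => iSup₂_le fun α hα z hz => ?_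
            rw [LinearMap.mem_ker, LinearMap.flip_apply]
            by_cases hm : m + m' = 2 * d
            · have h4 : R.exc q m' c' ≤ LinearMap.ker (B z) := by
                refine iSup₂_le fun β hβ t ht => ?_
                rw [LinearMap.mem_ker]
                refine gen_orth (S := ⊤) (fun _ _ => Submodule.mem_top) (fun x y _ _ => hB2 x y) ?_
                  Submodule.mem_top Submodule.mem_top (Submodule.mem_inf.1 hz).2
                  (Submodule.mem_inf.1 ht).2
                intro h5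
                have h6 := weil_mul (by omega) hα hβ
                rw [h5] at h6
                have h7 := weil_unique hq h6 (weil_natPow (by omega) d)
                omega
              exact LinearMap.mem_ker.1 (h4 hy)
            · exact hB1 m m' z y (Submodule.mem_inf.1 hz).1 (exc_le m' c' hy) hm
          exact LinearMap.mem_ker.1 (h2 x.2)
      intro y
      have h8 : (⊤ : Submodule Ω R.V) ≤ LinearMap.ker (B x) := by
        rw [← hR.isInternal.submodule_iSup_eq_top]
        refine iSup_le fun m' => ?_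
        rw [← w_iSup_exc hR m']
        exact iSup_le fun c' y hy => LinearMap.mem_ker.2 (h1 m' c' y hy)
      exact LinearMap.mem_ker.1 (h8 (Submodule.mem_top))
    have := LinearMap.finrank_le_finrank_of_injective hφ
    rwa [Subspace.dual_finrank_eq] at this
  apply le_antisymm (key c)
  have := key (-c)
  rwa [neg_neg] at this

lemma w_exists_strings [IsAlgClosed Ω] (hq : 1 < q) (hR : IsWCoh R q) :
    Nonempty (Strings (R.tot q) R.N) := by
  have := hR.finite
  exact Pool.Agent.Y153.MW.stA Ω R.V (R.tot q) R.N (w_isInternal_tot hq hR) (w_N_tot hq hR)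

lemma w_mw_iff [IsAlgClosed Ω] (hq : 1 < q) (hR : IsWCoh R q) (S : Strings (R.tot q) R.N) :
    (∀ m, R.MWPure q m) ↔ ∀ s, S.top s = S.len s := by
  rw [← w_centred_tot_iff hq hR]
  exact Pool.Agent.Y614.MW.stF Ω R.V (R.tot q) R.N (w_isInternal_tot hq hR) S

/-- The second moment inequality for the whole cohomology. -/
theorem w_moment_tot [IsAlgClosed Ω] (hq : 1 < q) (hR : IsWCoh R q) :
    R.totRankMoment ≤ R.totWeightMoment q ∧
      (R.totRankMoment = R.totWeightMoment q ↔ ∀ m, R.MWPure q m) := by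
  have := hR.finite
  have h := moment (w_isInternal_tot hq hR) (w_N_tot hq hR)
  rw [w_centred_tot_iff hq hR, ← rankSum_top] at h
  exact h

/-- The kernel of `N` has at least the predicted dimension. -/
theorem w_pred_le_inv [IsAlgClosed Ω] (hB1 : StB1.{w, v}) (hq : 1 < q) (hR : IsWCoh R q) :
    R.pred q ≤ R.inv := by
  obtain ⟨S⟩ := w_exists_strings hq hR
  rw [(adp_strings S).inv_eq hB1, w_pred_eq hq hR (adp_strings S)]
  exact S.card_le

lemma w_totRank_pos [IsAlgClosed Ω] (hq : 1 < q) (hR : IsWCoh R q) (hN : R.N ≠ 0) :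
    0 < R.totRankMoment := by
  obtain ⟨S⟩ := w_exists_strings hq hR
  obtain ⟨s, hs⟩ := exists_len S hN
  rw [totRank_eq S]
  have h1 : S.ct ⟨s, ⟨0, by omega⟩⟩ = S.len s := by
    unfold Strings.ct
    simp
  have h2 : 0 < S.ct ⟨s, ⟨0, by omega⟩⟩ ^ 2 := by
    rw [h1]
    have : (0 : ℤ) < S.len s := by exact_mod_cast hs
    positivity
  exact lt_of_lt_of_le h2 (Finset.single_le_sum (f := fun p => S.ct p ^ 2)
    (fun p _ => sq_nonneg _) (Finset.mem_univ _))

lemma w_totWeight_eq (hq : 1 < q) (hR : IsWCoh R q) (S : Strings (R.tot q) R.N) :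
    R.totWeightMoment q = ∑ p, S.wt p ^ 2 := S.weightMoment (w_indep_tot hq hR)

/-- `R n` is the cohomology of the `(n + 1)`-st power of an object of dimension `d`. -/
structure IsPowers (R : ℕ → Coh.{v, w} Ω) (q d : ℕ) : Prop where
  coh : ∀ n, IsWCoh (R n) q
  dual : ∃ B, IsPoincare (R 0) q d B
  kunneth : ∀ n, ∃ κ, IsKunneth (R 0) (R n) (R (n + 1)) κ

/-- Adapted bases for all the powers. -/
theorem w_adp_pow {R : ℕ → Coh.{v, w} Ω} {d : ℕ} (hT : IsPowers R q d) (hq : 1 < q) {I : Type}
    {a c : I → ℤ} (H : (R 0).Adp q a c) (n : ℕ) :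
    (R n).Adp q (fun g : Fin (n + 1) → I => ∑ k, a (g k))
      (fun g : Fin (n + 1) → I => ∑ k, c (g k)) := by
  induction n with
  | zero =>
    refine H.reindex (Equiv.funUnique (Fin 1) I).symm _ _ (fun g => ?_) (fun g => ?_)
    · simp
    · simp
  | succ n ih =>
    obtain ⟨κ, hκ⟩ := hT.kunneth n
    have H' : (R (n + 1)).Adp q
        (fun p : I × (Fin (n + 1) → I) => a p.1 + ∑ k, a (p.2 k))
        (fun p : I × (Fin (n + 1) → I) => c p.1 + ∑ k, c (p.2 k)) := H.prod ih (by omega) hκ
    refine H'.reindex (Fin.consEquiv (fun _ => I)) _ _ (fun g => ?_) (fun g => ?_)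
    · rw [Fin.sum_univ_succ]
      rfl
    · rw [Fin.sum_univ_succ]
      rfl

theorem w_exists_powSeq [IsAlgClosed Ω] (hq : 1 < q) {R : ℕ → Coh.{v, w} Ω} {d : ℕ}
    (hT : IsPowers R q d) : ∃ S : Strings ((R 0).tot q) (R 0).N, PowSeq (R := R) q S := by
  obtain ⟨S⟩ := w_exists_strings hq (hT.coh 0)
  obtain ⟨B, hB⟩ := hT.dual
  refine ⟨S, ⟨fun n => w_indep_tot hq (hT.coh _), fun n => ?_, ?_⟩⟩
  · exact w_adp_pow hT hq (adp_strings S) n
  · exact sum_wt_of_sym (w_indep_tot hq (hT.coh 0)) S (w_finrank_tot_neg hq (hT.coh 0) hB)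

lemma w_exists_wt_ne [IsAlgClosed Ω] (hq : 1 < q) (hR : IsWCoh R q) (S : Strings (R.tot q) R.N)
    (hN : R.N ≠ 0) : ∃ p, S.wt p ≠ 0 := by
  by_contra hcon
  push Not at hcon
  have h1 := w_totWeight_eq hq hR S
  have h2 := w_totRank_pos hq hR hN
  have h3 := (w_moment_tot hq hR).1
  rw [h1, Finset.sum_eq_zero (fun p _ => by rw [hcon p]; rfl)] at h3
  omega

lemma w_exists_defect_ne [IsAlgClosed Ω] (hq : 1 < q) (hR : IsWCoh R q)
    (S : Strings (R.tot q) R.N) (h : ¬ ∀ m, R.MWPure q m) : ∃ p, S.wt p - S.ct p ≠ 0 := by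
  rw [w_mw_iff hq hR S] at h
  push Not at h
  obtain ⟨s, hs⟩ := h
  refine ⟨⟨s, ⟨0, by omega⟩⟩, ?_⟩
  unfold Strings.wt Strings.ct
  simp only
  omega

end

end Pool.Agent.Q60.RG
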