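import Pool.Agent.Q60.RG.A
import Pool.Agent.Y163.MW.Asm

/-!
# The index law, the criterion on `X × X`, the filtration by weights
-/

set_option autoImplicit false

open Module TensorProduct Filter Topology

namespace Pool.Agent.Q60.RG

universe u v w

open Pool.Agent.Y143 Pool.Agent.Y136.UB Pool.Agent.Y163.MW Pool.Agent.Y163.MW.Coh Pool.Agent.Q60.PL

section

variable {K : Type u} [Field K] {V : Type v} [AddCommGroup V] [Module K V]

/-- The increasing filtration given by a grading. -/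
def fil (W : ℤ → Submodule K V) (s : ℤ) : Submodule K V := ⨆ (c : ℤ) (_ : c ≤ s), W c

/-- The grading is centred if and only if the filtration is the monodromy filtration. -/
theorem centred_iff_fil [Module.Finite K V] {W : ℤ → Submodule K V} {N : Module.End K V}
    (hW : iSupIndep W) (hN : ∀ c, ∀ x ∈ W c, N x ∈ W (c - 2)) :
    Centred W N ↔ IsMonodromyFiltrationOn (⨆ c, W c) N (fil W) := by
  obtain ⟨π, p1, p2, p3⟩ := Pool.Agent.Y48.MW.exists_comp hW
  have hfin : {c | W c ≠ ⊥}.Finite := WellFoundedGT.finite_ne_bot_of_iSupIndep hW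
  have cN : ∀ x ∈ ⨆ c, W c, ∀ (a : ℕ) (c : ℤ), (N ^ a) (π c x) = π (c - 2 * a) ((N ^ a) x) :=
    fun x hx a c => Pool.Agent.Y48.MW.comm_of p2 p3 (N ^ a) (2 * a)
      (Pool.Agent.Y48.MW.pow_mem hN a) hx c
  have mN : ∀ x ∈ ⨆ c, W c, N x ∈ ⨆ c, W c := fun x hx => Pool.Agent.Y48.MW.sup_mem 2 hN hx
  have leS : ∀ c, W c ≤ ⨆ c, W c := fun c => le_iSup W c
  have hsum : ∀ y, y ∈ ⨆ c, W c → y = ∑ c ∈ hfin.toFinset, π c y := by
    intro y hy
    induction hy using Submodule.iSup_induction' with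
    | mem d y hy =>
      by_cases hd : W d = ⊥
      · rw [hd, Submodule.mem_bot] at hy
        simp [hy]
      · rw [Finset.sum_eq_single d]
        · exact (p2 d y hy).symm
        · intro c _ hc
          exact p3 c d (Ne.symm hc) y hy
        · intro h
          exact absurd (hfin.mem_toFinset.2 hd) h
    | zero => simp
    | add x y _ _ hx hy =>
      simp only [map_add]
      rw [Finset.sum_add_distrib, ← hx, ← hy]
  have mem : ∀ s x, x ∈ fil W s ↔ x ∈ (⨆ c, W c) ∧ ∀ c, s < c → π c x = 0 := by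
    intro s x
    constructor
    · intro hx
      refine ⟨(iSup₂_le fun c _ => leS c : fil W s ≤ _) hx, fun c hc => ?_⟩
      have : fil W s ≤ LinearMap.ker (π c) := iSup₂_le fun d hd y hy =>
        LinearMap.mem_ker.2 (p3 c d (by omega) y hy)
      exact LinearMap.mem_ker.1 (this hx)
    · rintro ⟨hx, h⟩
      rw [hsum x hx]
      refine Submodule.sum_mem _ fun c _ => ?_
      by_cases hc : c ≤ s
      · exact Submodule.mem_iSup_of_mem c (Submodule.mem_iSup_of_mem hc (p1 c x))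
      · rw [h c (not_le.1 hc)]
        exact zero_mem _
  have zer : ∀ c x, W c = ⊥ → π c x = 0 := fun c x h => by
    have := p1 c x
    rwa [h, Submodule.mem_bot] at this
  have wm : ∀ a : ℤ, ∀ x ∈ W a, x ∈ fil W a := fun a x hx =>
    (mem a x).2 ⟨leS a hx, fun c hc => p3 c a (by omega) x hx⟩
  constructor
  · intro hC
    refine ⟨?_, ?_, ?_, ?_, ?_, ?_, ?_⟩
    · intro a b hab x hx
      rw [mem] at hx ⊢
      exact ⟨hx.1, fun c hc => hx.2 c (lt_of_le_of_lt hab hc)⟩
    · obtain ⟨b, hb⟩ := hfin.bddBelow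
      refine ⟨b - 1, ?_⟩
      rw [eq_bot_iff]
      intro x hx
      rw [mem] at hx
      rw [Submodule.mem_bot]
      refine Pool.Agent.Y48.MW.eq_zero_of p2 p3 hfin hx.1 fun c hc => hx.2 c ?_
      have := hb hc
      omega
    · obtain ⟨b, hb⟩ := hfin.bddAbove
      refine ⟨b, ?_⟩
      apply le_antisymm
      · exact fun x hx => ((mem b x).1 hx).1
      · intro x hx
        rw [mem]
        refine ⟨hx, fun c hc => zer c x ?_⟩
        by_contra hne
        have := hb hne
        omega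
    · exact fun s x hx => ((mem s x).1 hx).1
    · intro s x hx
      rw [mem] at hx ⊢
      refine ⟨mN x hx.1, fun c hc => ?_⟩
      have h1 := cN x hx.1 1 (c + 2)
      rw [pow_one, show c + 2 - 2 * ((1 : ℕ) : ℤ) = c by push_cast; ring, hx.2 (c + 2) (by omega),
        map_zero] at h1
      exact h1.symm
    · intro a x hx h1
      rw [mem] at hx h1 ⊢
      refine ⟨hx.1, fun c hc => ?_⟩
      by_cases hca : c = a
      · subst hca
        apply (hC a).1 _ (p1 _ _)
        rw [cN x hx.1 a a, show (a : ℤ) - 2 * a = -a by ring]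
        exact h1.2 (-a) (by omega)
      · exact hx.2 c (by omega)
    · intro a y hy
      rw [mem] at hy
      obtain ⟨x, hx, hxy⟩ := (hC a).2 (π (-(a : ℤ)) y) (p1 _ _)
      refine ⟨x, wm _ x hx, ?_⟩
      rw [mem]
      have h1 : (N ^ a) x ∈ W (-(a : ℤ)) := by rw [hxy]; exact p1 _ _
      refine ⟨sub_mem hy.1 (leS _ h1), fun c hc => ?_⟩
      rw [map_sub]
      by_cases hca : c = -(a : ℤ)
      · subst hca
        rw [p2 _ _ h1, hxy, sub_self]
      · rw [hy.2 c (by omega), p3 c (-(a : ℤ)) (Ne.symm hca) _ h1, sub_self]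
  · intro hM a
    constructor
    · intro x hx h0
      have h1 := hM.inj a x (wm _ x hx) (by rw [h0]; exact zero_mem _)
      have h2 := ((mem _ x).1 h1).2 a (by omega)
      rwa [p2 _ x hx] at h2
    · intro y hy
      obtain ⟨x, hx, hxy⟩ := hM.surj_exact a y (wm _ y hy)
      refine ⟨π a x, p1 _ _, ?_⟩
      rw [cN x (hM.le _ hx) a a, hxy, show (a : ℤ) - 2 * a = -a by ring, p2 _ y hy]

/-- The pieces of degrees `c` and `-c` of a centred grading have the same dimension. -/
lemma centred_finrank [Module.Finite K V] {W : ℤ → Submodule K V} {N : Module.End K V}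
    (hN : ∀ c, ∀ x ∈ W c, N x ∈ W (c - 2)) (hC : Centred W N) (c : ℤ) :
    finrank K (W c) = finrank K (W (-c)) := by
  have key : ∀ a : ℕ, finrank K (W a) = finrank K (W (-(a : ℤ))) := by
    intro a
    have hmap : ∀ x ∈ W a, (N ^ a) x ∈ W (-(a : ℤ)) := by
      intro x hx
      have := Pool.Agent.Y48.MW.pow_mem hN a a x hx
      rwa [show (a : ℤ) - 2 * a = -a by ring] at this
    refine LinearEquiv.finrank_eq (LinearEquiv.ofBijective ((N ^ a).restrict hmap) ⟨?_, ?_⟩)
    · rw [← LinearMap.ker_eq_bot, LinearMap.ker_eq_bot']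
      intro x hx
      exact Subtype.ext ((hC a).1 x x.2 (congrArg Subtype.val hx))
    · intro y
      obtain ⟨x, hx, hxy⟩ := (hC a).2 y y.2
      exact ⟨⟨x, hx⟩, Subtype.ext hxy⟩
  rcases le_total 0 c with h | h
  · obtain ⟨a, rfl⟩ := Int.eq_ofNat_of_zero_le h
    exact key a
  · obtain ⟨a, ha⟩ := Int.eq_ofNat_of_zero_le (neg_nonneg.2 h)
    have := key a
    rw [← ha, neg_neg] at this
    exact this.symm

end

section

variable {Ω : Type w} [Field Ω] [CharZero Ω] [IsAlgClosed Ω] {R : Coh.{v, w} Ω} {q : ℕ}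

/-- If `H^m` is mw pure, the numbers of the eigenvalues of weight `m + c` and `m - c` agree. -/
theorem w_sym (hq : 1 < q) (hR : IsWCoh R q) {m : ℕ} (h : R.MWPure q m) (c : ℤ) :
    finrank Ω (R.exc q m c) = finrank Ω (R.exc q m (-c)) := by
  have := hR.finite
  exact centred_finrank (w_N_exc hq hR m) ((w_mwPure_iff hq hR m).1 h) c

/-- mw purity in terms of the filtration by the weights. -/
theorem w_mwPure_iff_fil (hq : 1 < q) (hR : IsWCoh R q) (m : ℕ) :
    R.MWPure q m ↔ IsMonodromyFiltrationOn (R.gr m) R.N (fil (R.exc q m)) := by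
  have := hR.finite
  rw [w_mwPure_iff hq hR m, centred_iff_fil (w_indep_exc_deg hq hR m) (w_N_exc hq hR m),
    w_iSup_exc hR m]

/-- The index law. -/
theorem w_index (hq : 1 < q) {R : ℕ → Coh.{v, w} Ω} {d : ℕ} (hT : IsPowers R q d)
    (hN : (R 0).N ≠ 0) :
    Tendsto (fun n : ℕ => ((R n).inv : ℝ) / ((R n).pred q : ℝ)) atTop
      (𝓝 (√(((R 0).totWeightMoment q : ℝ) / ((R 0).totRankMoment : ℝ)))) := by
  obtain ⟨S⟩ := w_exists_strings hq (hT.coh 0)
  have H := adp_strings S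
  rw [totRank_eq S, w_totWeight_eq hq (hT.coh 0) S]
  obtain ⟨s, hs⟩ := exists_len S hN
  have ha2 : ∃ p p', S.ct p = S.ct p' + 2 := by
    refine ⟨⟨s, ⟨0, by omega⟩⟩, ⟨s, ⟨1, by omega⟩⟩, ?_⟩
    unfold Strings.ct
    simp
  have hc2 : ∃ p p', S.wt p = S.wt p' + 2 := by
    refine ⟨⟨s, ⟨0, by omega⟩⟩, ⟨s, ⟨1, by omega⟩⟩, ?_⟩
    unfold Strings.wt
    simp
  have hc : ∀ r : ℤ, Nat.card {p // S.wt p = r} = Nat.card {p // S.wt p = -r} := by
    intro r
    obtain ⟨B, hB⟩ := hT.dual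
    rw [← w_finrank_tot hq (hT.coh 0) H, ← w_finrank_tot hq (hT.coh 0) H]
    exact w_finrank_tot_neg hq (hT.coh 0) hB r
  refine (lim_ratio S.ct S.wt (ct_sym S) hc ha2 hc2).congr fun n => ?_
  have Hn := w_adp_pow hT hq H n
  rw [Hn.inv_eq (Pool.Agent.Y954.MW.stB1 Pool.Agent.Y141.MW.stL), w_pred_eq hq (hT.coh _) Hn]

/-- The criterion on `X × X`. -/
theorem w_square (hq : 1 < q) {R₂ : Coh.{v, w} Ω} (hR : IsWCoh R q) (hR₂ : IsWCoh R₂ q)
    {κ : R.V ⊗[Ω] R.V ≃ₗ[Ω] R₂.V} (hκ : IsKunneth R R R₂ κ) :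
    R₂.pred q ≤ R₂.inv ∧ (R₂.inv = R₂.pred q ↔ ∀ m, R.MWPure q m) := by
  have hB1 := Pool.Agent.Y954.MW.stB1.{w, v} Pool.Agent.Y141.MW.stL
  obtain ⟨S⟩ := w_exists_strings hq hR
  have H := (adp_strings S).prod (adp_strings S) (by omega) hκ
  refine ⟨w_pred_le_inv hB1 hq hR₂, ?_⟩
  rw [w_mw_iff hq hR S, H.inv_eq hB1, w_pred_eq hq hR₂ H]
  constructor
  · intro h s
    exact S.pairs h.symm s
  · intro h
    have h1 : S.ct = S.wt := by
      funext p
      unfold Strings.ct Strings.wt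
      rw [h p.1]
    rw [h1]

end

end Pool.Agent.Q60.RG
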