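import Pool.Agent.Q60.RG.B

/-!
# Limit laws for a sequence of powers
-/

set_option autoImplicit false

open Module TensorProduct Filter Topology

namespace Pool.Agent.Q60.RG

universe u v w

open Pool.Agent.Y143 Pool.Agent.Y163.MW Pool.Agent.Q60.PL

section

variable {Ω : Type w} [Field Ω] [CharZero Ω] [IsAlgClosed Ω] {q : ℕ}

/-- The limit laws for monodromy and weights. -/
theorem powers_laws (hq : 1 < q) {R : ℕ → Coh.{v, w} Ω} {d : ℕ} (hP : IsPowers R q d)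
    (b A B : ℝ) (hb : b = finrank Ω (R 0).V) (hA : A = (R 0).totRankMoment)
    (hB : B = (R 0).totWeightMoment q) :
    A ≤ B ∧ (A = B ↔ ∀ m, (R 0).MWPure q m) ∧
    ((R 0).N ≠ 0 →
      (∀ t : ℝ, 0 ≤ t → Tendsto (fun n : ℕ => √((n + 1 : ℕ) : ℝ) *
        ((numBlocks (R n).N ⌊t * √((n + 1 : ℕ) : ℝ)⌋₊ : ℝ) / b ^ (n + 1))) atTop
        (𝓝 (√(2 * b / (Real.pi * A)) * Real.exp (-(t ^ 2 * b / (2 * A)))))) ∧
      (∀ t : ℝ, 0 ≤ t → Tendsto (fun n : ℕ =>
        (nearWeights (R n) q (t * √((n + 1 : ℕ) : ℝ)) : ℝ) / b ^ (n + 1)) atTop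
        (𝓝 (normalWindow (t / √(B / b))))) ∧
      Tendsto (fun n : ℕ => ((R n).inv : ℝ) / ((R n).pred q : ℝ)) atTop (𝓝 √(B / A))) ∧
    ((∀ m, (R 0).MWPure q m) → ∀ m c, finrank Ω ((R 0).exc q m c) =
      finrank Ω ((R 0).exc q m (-c))) := by
  have hX := hP.coh 0
  obtain ⟨S, H⟩ := w_exists_powSeq hq hP
  obtain ⟨hle, hiff⟩ := w_moment_tot hq hX
  subst hb hA hB
  refine ⟨by exact_mod_cast hle, ?_, fun hN => ⟨fun t ht => ?_, fun t ht => ?_, ?_⟩, ?_⟩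
  · rw [← hiff]
    exact_mod_cast Iff.rfl
  · have h1 := H.rayleigh hN ht
    rw [Coh.totRank_eq S]
    exact h1
  · have h1 := H.weights (w_exists_wt_ne hq hX S hN) ht
    rw [w_totWeight_eq hq hX S]
    exact h1
  · exact w_index hq hP hN
  · exact fun h m c => w_sym hq hX (h m) c

/-- The law for the defects. -/
theorem defect_laws (hq : 1 < q) {R : ℕ → Coh.{v, w} Ω} {d : ℕ} (hP : IsPowers R q d)
    (M : ∀ n, ℤ → Submodule Ω (R n).V) (hM : ∀ n, IsMonodromyFiltrationOn ⊤ (R n).N (M n))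
    (b A B : ℝ) (hb : b = finrank Ω (R 0).V) (hA : A = (R 0).totRankMoment)
    (hB : B = (R 0).totWeightMoment q) :
    ((∀ m, (R 0).MWPure q m) → ∀ n, (nearDefects (R n) q (M n) 0 : ℝ) = b ^ (n + 1)) ∧
    (¬ (∀ m, (R 0).MWPure q m) → A < B ∧ ∀ t : ℝ, 0 ≤ t →
      Tendsto (fun n : ℕ => (nearDefects (R n) q (M n) (t * √((n + 1 : ℕ) : ℝ)) : ℝ) /
        b ^ (n + 1)) atTop (𝓝 (normalWindow (t / √((B - A) / b))))) := by
  have hX := hP.coh 0
  obtain ⟨S, H⟩ := w_exists_powSeq hq hP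
  obtain ⟨hle, hiff⟩ := w_moment_tot hq hX
  subst hb hA hB
  refine ⟨fun h n => ?_, fun h' => ⟨?_, fun t ht => ?_⟩⟩
  · have h1 := (w_mw_iff hq hX S).1 h
    refine H.defects_zero (fun p => ?_) M hM n
    unfold Strings.wt Strings.ct
    rw [h1 p.1]
    ring
  · have h1 : (R 0).totRankMoment < (R 0).totWeightMoment q :=
      lt_of_le_of_ne hle fun h2 => h' (hiff.1 h2)
    exact_mod_cast h1
  · have h2 := H.defects (w_exists_defect_ne hq hX S h') ht M hM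
    rw [Coh.totRank_eq S, w_totWeight_eq hq hX S]
    exact h2

end

end Pool.Agent.Q60.RG
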