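import Pool.Agent.Q60.PL.LWM

/-!
# Cohomology with weights and monodromy, without hard Lefschetz theorem

The results of `Pool.Agent.Y163.MW.Wt` and `Pool.Agent.Y163.MW.Deg` (with the same proofs) for
cohomology data without self-duality of the `H^m`.
-/

set_option autoImplicit false

open Module TensorProduct

namespace Pool.Agent.Q60.RG

universe u v w

open Pool.Agent.Y143 Pool.Agent.Y136.UB Pool.Agent.Y163.MW Pool.Agent.Y163.MW.Coh

variable {Ω : Type w} [Field Ω] [CharZero Ω] {R : Coh.{v, w} Ω} {q : ℕ}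

/-- The basic properties of the cohomology of a variety `X` over a local field: `F` and `N` respect
the degrees and `N F = q F N`; the eigenvalues of `F` are `q`-Weil numbers of integral weights. -/
structure IsWCoh (R : Coh.{v, w} Ω) (q : ℕ) : Prop where
  finite : Module.Finite Ω R.V
  isInternal : DirectSum.IsInternal R.gr
  F_gr : Respects R.gr R.F
  N_gr : Respects R.gr R.N
  N_F : Twisted (q : Ω) R.F R.N
  weil : HasWeights q R.gr R.F

lemma w_indep_pc (hR : IsWCoh R q) : iSupIndep R.pc :=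
  iSupIndep_inf hR.isInternal.submodule_iSupIndep (Module.End.independent_maxGenEigenspace R.F)

lemma w_gr_eq [IsAlgClosed Ω] (hR : IsWCoh R q) (m : ℕ) : R.gr m = ⨆ α, R.pc (m, α) := by
  have := hR.finite
  exact Submodule.eq_iSup_inf_genEigenspace ⊤ (hR.F_gr m)
    (Module.End.iSup_maxGenEigenspace_eq_top R.F)

lemma w_exists_weil (hR : IsWCoh R q) {m : ℕ} {α : Ω} {x : R.V} (hx : x ∈ R.pc (m, α))
    (h0 : x ≠ 0) : ∃ w : ℤ, IsWeilNumber q w α := by
  obtain ⟨y, hy, hy0, hFy⟩ := exists_eigen_of_gen (hR.F_gr m) (Submodule.mem_inf.1 hx).1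
    (Submodule.mem_inf.1 hx).2 h0
  exact hR.weil m α y hy hy0 hFy

lemma w_pc_eq_bot (hR : IsWCoh R q) {m : ℕ} {α : Ω} (h : ¬ ∃ w : ℤ, IsWeilNumber q w α) :
    R.pc (m, α) = ⊥ := by
  rw [Submodule.eq_bot_iff]
  intro x hx
  by_contra h0
  exact h (w_exists_weil hR hx h0)

lemma w_exc_eq (hq : 1 < q) (hR : IsWCoh R q) (m : ℕ) (c : ℤ) :
    R.exc q m c = ⨆ (p : ℕ × Ω) (_ : (p.1, wtf q p.2 - p.1) = (m, c)), R.pc p := by
  apply le_antisymm
  · refine iSup₂_le fun α hα => ?_
    refine le_iSup₂_of_le (m, α) ?_ le_rfl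
    rw [wtf_eq hq hα]
    simp
  · refine iSup₂_le fun p hp => ?_
    obtain ⟨m', α⟩ := p
    simp only [Prod.mk.injEq] at hp
    obtain ⟨rfl, hc⟩ := hp
    by_cases h : ∃ w : ℤ, IsWeilNumber q w α
    · obtain ⟨w, hw⟩ := h
      rw [wtf_eq hq hw] at hc
      refine le_iSup₂_of_le α ?_ le_rfl
      rwa [show (m' : ℤ) + c = w by omega]
    · rw [w_pc_eq_bot hR h]
      exact bot_le

lemma w_indep_exc (hq : 1 < q) (hR : IsWCoh R q) :
    iSupIndep (fun p : ℕ × ℤ => R.exc q p.1 p.2) := by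
  have h := iSupIndep_fib (w_indep_pc hR) (fun p : ℕ × Ω => (p.1, wtf q p.2 - (p.1 : ℤ)))
  have e : (fun p : ℕ × ℤ => R.exc q p.1 p.2) = fun j : ℕ × ℤ =>
      ⨆ (p : ℕ × Ω) (_ : (p.1, wtf q p.2 - (p.1 : ℤ)) = j), R.pc p := by
    funext j
    exact w_exc_eq hq hR j.1 j.2
  rw [e]
  exact h

lemma w_indep_exc_deg (hq : 1 < q) (hR : IsWCoh R q) (m : ℕ) : iSupIndep (R.exc q m) :=
  (w_indep_exc hq hR).comp (f := fun c : ℤ => (m, c)) (fun c c' h => (Prod.mk.inj h).2)

lemma w_iSup_exc [IsAlgClosed Ω] (hR : IsWCoh R q) (m : ℕ) : ⨆ c, R.exc q m c = R.gr m := by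
  apply le_antisymm
  · exact iSup_le fun c => exc_le m c
  · rw [w_gr_eq hR m]
    refine iSup_le fun α => ?_
    by_cases h : ∃ w : ℤ, IsWeilNumber q w α
    · obtain ⟨w, hw⟩ := h
      refine le_iSup_of_le (w - m) (le_iSup₂_of_le α ?_ le_rfl)
      rwa [show (m : ℤ) + (w - m) = w by ring]
    · rw [w_pc_eq_bot hR h]
      exact bot_le

lemma w_indep_tot (hq : 1 < q) (hR : IsWCoh R q) : iSupIndep (R.tot q) := by
  have h := iSupIndep_fib (w_indep_exc hq hR) (fun p : ℕ × ℤ => p.2)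
  have e : R.tot q = fun j : ℤ => ⨆ (p : ℕ × ℤ) (_ : p.2 = j), R.exc q p.1 p.2 := by
    funext j
    exact tot_eq j
  rw [e]
  exact h

lemma w_isInternal_tot [IsAlgClosed Ω] (hq : 1 < q) (hR : IsWCoh R q) :
    DirectSum.IsInternal (R.tot q) := by
  apply DirectSum.isInternal_submodule_of_iSupIndep_of_iSup_eq_top (w_indep_tot hq hR)
  rw [eq_top_iff, ← hR.isInternal.submodule_iSup_eq_top]
  refine iSup_le fun m => ?_
  rw [← w_iSup_exc hR m]
  exact iSup_mono fun c => exc_le_tot m c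

lemma w_F_exc (hR : IsWCoh R q) (m : ℕ) (c : ℤ) : ∀ x ∈ R.exc q m c, R.F x ∈ R.exc q m c := by
  intro x hx
  have h : R.exc q m c ≤ (R.exc q m c).comap R.F := by
    refine iSup₂_le fun α hα => ?_
    intro y hy
    refine Submodule.mem_iSup_of_mem α (Submodule.mem_iSup_of_mem hα ?_)
    obtain ⟨h1, h2⟩ := Submodule.mem_inf.1 hy
    refine Submodule.mem_inf.2 ⟨hR.F_gr m y h1, ?_⟩
    exact gen_map R.F (fun _ => rfl) h2
  exact h hx

lemma w_N_exc (hq : 1 < q) (hR : IsWCoh R q) (m : ℕ) (c : ℤ) :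
    ∀ x ∈ R.exc q m c, R.N x ∈ R.exc q m (c - 2) := by
  intro x hx
  have hq0 : (q : Ω) ≠ 0 := Nat.cast_ne_zero.2 (by omega)
  have h : R.exc q m c ≤ (R.exc q m (c - 2)).comap R.N := by
    refine iSup₂_le fun α hα => ?_
    intro y hy
    have h3 := hα.twist (by omega : q ≠ 0) (-1)
    rw [show (m : ℤ) + c + 2 * (-1) = m + (c - 2) by ring] at h3
    refine Submodule.mem_iSup_of_mem _ (Submodule.mem_iSup_of_mem h3 ?_)
    obtain ⟨h1, h2⟩ := Submodule.mem_inf.1 hy
    refine Submodule.mem_inf.2 ⟨hR.N_gr m y h1, ?_⟩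
    have h4 : y ∈ ((q : Ω) ^ (-1 : ℤ) • R.F).maxGenEigenspace ((q : Ω) ^ (-1 : ℤ) * α) := by
      obtain ⟨k, hk⟩ := mem_gen.1 h2
      refine mem_gen.2 ⟨k, ?_⟩
      have e : (q : Ω) ^ (-1 : ℤ) • R.F - algebraMap Ω (Module.End Ω R.V) ((q : Ω) ^ (-1 : ℤ) * α) =
          (q : Ω) ^ (-1 : ℤ) • (R.F - algebraMap Ω (Module.End Ω R.V) α) := by
        ext z
        simp only [LinearMap.sub_apply, LinearMap.smul_apply, Module.algebraMap_end_apply,
          smul_sub, smul_smul]
      rw [e, smul_pow, LinearMap.smul_apply, hk, smul_zero]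
    refine gen_map R.N (fun z => ?_) h4
    rw [LinearMap.smul_apply, map_smul, hR.N_F, smul_smul, zpow_neg_one, inv_mul_cancel₀ hq0,
      one_smul]
  exact h hx

lemma w_N_tot (hq : 1 < q) (hR : IsWCoh R q) (c : ℤ) :
    ∀ x ∈ R.tot q c, R.N x ∈ R.tot q (c - 2) := by
  intro x hx
  have h : R.tot q c ≤ (R.tot q (c - 2)).comap R.N := by
    refine iSup_le fun m => ?_
    intro y hy
    exact exc_le_tot m _ (w_N_exc hq hR m c y hy)
  exact h hx

lemma w_eigen_exc (hq : 1 < q) (hR : IsWCoh R q) {m : ℕ} {c : ℤ} {α : Ω} {x : R.V}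
    (hx : x ∈ R.exc q m c) (h0 : x ≠ 0) (hF : R.F x = α • x) : IsWeilNumber q (m + c) α := by
  have hxm := exc_le m c hx
  obtain ⟨w, hw⟩ := hR.weil m α x hxm h0 hF
  have h1 : x ∈ R.exc q m (w - m) := by
    refine Submodule.mem_iSup_of_mem α (Submodule.mem_iSup_of_mem ?_ ?_)
    · rwa [show (m : ℤ) + (w - m) = w by ring]
    · refine Submodule.mem_inf.2 ⟨hxm, mem_gen.2 ⟨1, ?_⟩⟩
      rw [pow_one, LinearMap.sub_apply, Module.algebraMap_end_apply, hF, sub_self]
  have h2 : c = w - m := by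
    by_contra hne
    have := (w_indep_exc_deg hq hR m).pairwiseDisjoint hne
    exact h0 (Submodule.disjoint_def.1 this x hx h1)
  rw [h2, show (m : ℤ) + (w - m) = w by ring]
  exact hw


section

variable [IsAlgClosed Ω]

/-- mw purity means that the weight decomposition is centred. -/
lemma w_mwPure_iff (hq : 1 < q) (hR : IsWCoh R q) (m : ℕ) :
    R.MWPure q m ↔ Centred (R.exc q m) R.N := by
  have := hR.finite
  exact Pool.Agent.Y48.MW.t_G Ω R.V (R.gr m) (R.exc q m) R.F R.N (q : Ω)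
    (fun c α => IsWeilNumber q (m + c) α) (w_iSup_exc hR m) (w_indep_exc_deg hq hR m)
    (w_F_exc hR m) (w_N_exc hq hR m) (Nat.cast_ne_zero.2 (by omega)) (fun x _ => hR.N_F x)
    (fun c α x hx h0 hF => w_eigen_exc hq hR hx h0 hF)
    (fun c c' α h h' => by have := weil_unique hq h h'; omega)

/-- The second moment inequality for `H^m`; equality holds if and only if `H^m` is mw pure. -/
theorem w_moment_deg (hq : 1 < q) (hR : IsWCoh R q) (m : ℕ) :
    R.rankMoment m ≤ R.weightMoment q m ∧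
      (R.rankMoment m = R.weightMoment q m ↔ R.MWPure q m) := by
  have := hR.finite
  have hi := internal_comap (w_indep_exc_deg hq hR m) (w_iSup_exc hR m)
  have h := moment (V := R.gr m) (N := R.N.restrict (hR.N_gr m)) hi
    (fun c x hx => w_N_exc hq hR m c x hx)
  rw [centred_comap (hR.N_gr m) (exc_le m), ← w_mwPure_iff hq hR m] at h
  have e1 : R.rankMoment m =
      ∑ᶠ k : ℕ, 2 * (k : ℤ) * finrank Ω (LinearMap.range ((R.N.restrict (hR.N_gr m)) ^ k)) := by
    refine finsum_congr fun k => ?_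
    rw [finrank_range_restrict]
  have e2 : R.weightMoment q m =
      ∑ᶠ c : ℤ, c ^ 2 * (finrank Ω ((R.exc q m c).comap (R.gr m).subtype) : ℤ) := by
    refine finsum_congr fun c => ?_
    rw [finrank_comap (exc_le m c)]
  rw [e1, e2]
  exact h

/-- The total weight decomposition is centred if and only if all `H^m` are mw pure. -/
theorem w_centred_tot_iff (hq : 1 < q) (hR : IsWCoh R q) :
    Centred (R.tot q) R.N ↔ ∀ m, R.MWPure q m := by
  classical
  have hind := hR.isInternal.submodule_iSupIndep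
  rw [iSupIndep_iff_finsetSum_eq_zero_imp_eq_zero] at hind
  have hNk : ∀ (k m : ℕ) (c : ℤ), ∀ x ∈ R.exc q m c, (R.N ^ k) x ∈ R.exc q m (c - 2 * k) := by
    intro k m
    induction k with
    | zero => intro c x hx; simpa using hx
    | succ k ih =>
      intro c x hx
      rw [pow_succ', Module.End.mul_apply]
      have := w_N_exc hq hR m _ _ (ih c x hx)
      rwa [show c - 2 * (k : ℤ) - 2 = c - 2 * ((k + 1 : ℕ) : ℤ) by push_cast; ring] at this
  -- decomposition of the elements of `tot`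
  have hdec : ∀ (c : ℤ) (x : R.V), x ∈ R.tot q c → ∃ (f : ℕ →₀ R.V),
      (∀ m, f m ∈ R.exc q m c) ∧ ∀ s : Finset ℕ, f.support ⊆ s → ∑ m ∈ s, f m = x := by
    intro c x hx
    obtain ⟨f, hf, hfx⟩ := (Submodule.mem_iSup_iff_exists_finsupp _ _).1 hx
    refine ⟨f, hf, fun s hs => ?_⟩
    rw [← hfx, Finsupp.sum]
    symm
    refine Finset.sum_subset hs fun i _ hi => ?_
    exact Finsupp.notMem_support_iff.1 hi
  constructor
  · intro h m
    rw [w_mwPure_iff hq hR]
    intro a
    refine ⟨fun x hx h0 => (h a).1 x (exc_le_tot m _ hx) h0, fun y hy => ?_⟩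
    obtain ⟨x, hx, hxy⟩ := (h a).2 y (exc_le_tot m _ hy)
    obtain ⟨f, hf, hfx⟩ := hdec _ x hx
    refine ⟨f m, hf m, ?_⟩
    have h1 : ∑ i ∈ insert m f.support, ((R.N ^ a) (f i) - if i = m then y else 0) = 0 := by
      rw [Finset.sum_sub_distrib, Finset.sum_ite_eq' (insert m f.support) m (fun _ => y),
        if_pos (Finset.mem_insert_self m _), ← map_sum, hfx _ (Finset.subset_insert _ _), hxy,
        sub_self]
    have h2 := hind (insert m f.support) _ ?_ h1 m (Finset.mem_insert_self m _)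
    · rw [if_pos rfl, sub_eq_zero] at h2
      exact h2
    · intro i _
      refine Submodule.sub_mem _ (exc_le i _ (hNk a i _ _ (hf i))) ?_
      split_ifs with hi
      · rw [hi]
        exact exc_le m _ hy
      · exact Submodule.zero_mem _
  · intro h a
    have h' := fun m => (w_mwPure_iff hq hR m).1 (h m) a
    refine ⟨fun x hx h0 => ?_, fun y hy => ?_⟩
    · obtain ⟨f, hf, hfx⟩ := hdec _ x hx
      rw [← hfx f.support (Finset.Subset.refl _), map_sum] at h0
      rw [← hfx f.support (Finset.Subset.refl _)]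
      refine Finset.sum_eq_zero fun i hi => ?_
      exact (h' i).1 _ (hf i) (hind f.support _ (fun i _ => exc_le i _ (hNk a i _ _ (hf i))) h0 i hi)
    · obtain ⟨f, hf, hfx⟩ := hdec _ y hy
      choose g hg hg' using fun i => (h' i).2 (f i) (hf i)
      refine ⟨∑ i ∈ f.support, g i, Submodule.sum_mem _ fun i _ => exc_le_tot i _ (hg i), ?_⟩
      rw [map_sum, ← hfx f.support (Finset.Subset.refl _)]
      exact Finset.sum_congr rfl fun i _ => hg' i


end

end Pool.Agent.Q60.RG
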